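import Pool.Agent.W2helper83.BT.Defs6
import Pool.Agent.W2helper92.BT2.LocPow

/-!
# Project BT6 (owner helper83), piece LOCMB: the bad places of bicritical maps
-/

set_option autoImplicit false

namespace Pool.Agent.W2helper63.BT6

open Pool.Agent.W2helper83.BT Pool.Agent.W2helper92.BT2

section basic

variable {K Γ : Type} [Field K] [LinearOrderedCommGroupWithZero Γ] {w : Valuation K Γ}

/-- the wedge of two vectors -/
def wd (P Q : K × K) : K := P.1 * Q.2 - Q.1 * P.2

lemma nn_eq_zero {P : K × K} (h : nn w P = 0) : P = 0 := by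
  unfold nn at h
  have a1 : w P.1 = 0 := le_antisymm (h ▸ le_max_left _ _) zero_le
  have a2 : w P.2 = 0 := le_antisymm (h ▸ le_max_right _ _) zero_le
  rw [w.zero_iff] at a1 a2
  exact Prod.ext a1 a2

lemma wd_smul (s t : K) (P Q : K × K) : wd (s • P) (t • Q) = s * t * wd P Q := by
  simp only [wd, Prod.smul_fst, Prod.smul_snd, smul_eq_mul]
  ring

lemma wd_swap (P Q : K × K) : wd P Q = -wd Q P := by
  simp only [wd]; ring

lemma wd_le (P Q : K × K) : w (wd P Q) ≤ nn w P * nn w Q := by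
  unfold wd
  refine w.map_sub_le ?_ ?_
  · rw [map_mul]
    exact mul_le_mul' (le_max_left _ _) (le_max_right _ _)
  · rw [map_mul, mul_comm]
    exact mul_le_mul' (le_max_right _ _) (le_max_left _ _)

lemma pow_sub_le {a b : K} {M : Γ} {d : ℕ} (hd : 1 ≤ d) (ha : w a ≤ M) (hb : w b ≤ M) :
    w (a ^ d - b ^ d) ≤ w (a - b) * M ^ (d - 1) := by
  rw [← (Commute.all a b).geom_sum₂_mul, map_mul, mul_comm]
  refine mul_le_mul' le_rfl ?_
  refine w.map_sum_le fun i hi => ?_
  have hi' : i ≤ d - 1 := by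
    have := Finset.mem_range.1 hi
    omega
  rw [map_mul, map_pow, map_pow]
  calc w a ^ i * w b ^ (d - 1 - i) ≤ M ^ i * M ^ (d - 1 - i) :=
        mul_le_mul' (pow_le_pow_left₀ zero_le ha i) (pow_le_pow_left₀ zero_le hb _)
    _ = M ^ (d - 1) := by rw [← pow_add, Nat.add_sub_cancel' hi']

variable {d : ℕ} {α β γ δ : K}

lemma FM_smul (s : K) (P : K × K) :
    FM d α β γ δ (s • P) = s ^ d • FM d α β γ δ P := by
  simp only [FM, Prod.smul_fst, Prod.smul_snd, smul_eq_mul, Prod.smul_mk]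
  ext <;> simp only <;> ring

lemma FM_wd (P Q : K × K) : wd (FM d α β γ δ P) (FM d α β γ δ Q) =
    (α * δ - β * γ) * ((P.1 * Q.2) ^ d - (Q.1 * P.2) ^ d) := by
  simp only [FM, wd]
  ring

lemma FM_it_smul (s : K) (P : K × K) (k : ℕ) :
    (FM d α β γ δ)^[k] (s • P) = s ^ (d ^ k) • (FM d α β γ δ)^[k] P := by
  induction k with
  | zero => simp
  | succ k ih =>
    rw [Function.iterate_succ_apply', Function.iterate_succ_apply', ih, FM_smul, ← pow_mul,
      pow_succ]

lemma FM_it_mul {P : K × K} {n : ℕ} {t : K} (ht : t ≠ 0)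
    (h : (FM d α β γ δ)^[n] P = t • P) (m : ℕ) :
    ∃ s : K, s ≠ 0 ∧ (FM d α β γ δ)^[n * m] P = s • P := by
  induction m with
  | zero => exact ⟨1, one_ne_zero, by simp⟩
  | succ m ih =>
    obtain ⟨s, hs, e⟩ := ih
    refine ⟨s ^ (d ^ n) * t, mul_ne_zero (pow_ne_zero _ hs) ht, ?_⟩
    rw [Nat.mul_succ, Nat.add_comm, Function.iterate_add_apply, e, FM_it_smul, h, smul_smul]

lemma nn_FM_le (hα : w α ≤ 1) (hβ : w β ≤ 1) (hγ : w γ ≤ 1) (hδ : w δ ≤ 1) (P : K × K) :
    nn w (FM d α β γ δ P) ≤ (nn w P) ^ d := by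
  have h1 : w (P.1 ^ d) ≤ nn w P ^ d := by
    rw [map_pow]
    exact pow_le_pow_left₀ zero_le (le_max_left _ _) d
  have h2 : w (P.2 ^ d) ≤ nn w P ^ d := by
    rw [map_pow]
    exact pow_le_pow_left₀ zero_le (le_max_right _ _) d
  have h3 : ∀ {a b : K}, w a ≤ 1 → w b ≤ nn w P ^ d → w (a * b) ≤ nn w P ^ d := by
    intro a b ha hb
    rw [map_mul]
    calc w a * w b ≤ 1 * nn w P ^ d := mul_le_mul' ha hb
      _ = nn w P ^ d := one_mul _
  unfold nn FM
  apply max_le
  · exact w.map_add_le (h3 hα h1) (h3 hβ h2)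
  · exact w.map_add_le (h3 hγ h1) (h3 hδ h2)

lemma fin_aux {p q : Γ} (hp : p ≠ 0) {a b : K} (ha : w a = p) (hb : w b = q)
    {A B : K × K} (hA : nn w A = p ^ d) (h1 : w (a ^ d * B.1 - b ^ d * A.1) < (p * q) ^ d)
    (h2 : w (a ^ d * B.2 - b ^ d * A.2) < (p * q) ^ d) (hB : nn w B ≤ q ^ d) :
    nn w B = q ^ d := by
  refine le_antisymm hB ?_
  have key : ∀ {u v : K}, w u = p ^ d → w (a ^ d * v - b ^ d * u) < (p * q) ^ d →
      q ^ d ≤ w v := by
    intro u v hu h
    by_contra hcon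
    rw [not_le] at hcon
    have e1 : w (b ^ d * u) = (p * q) ^ d := by
      rw [map_mul, map_pow, hb, hu, mul_pow, mul_comm]
    have e2 : w (a ^ d * v) < w (b ^ d * u) := by
      rw [e1, map_mul, map_pow, ha, mul_pow]
      have : 0 < p ^ d := zero_lt_iff.2 (pow_ne_zero _ hp)
      gcongr
    rw [w.map_sub_eq_of_lt_right e2, e1] at h
    exact absurd h (lt_irrefl _)
  rcases max_choice (w A.1) (w A.2) with h | h
  · have hu : w A.1 = p ^ d := by rw [← hA]; exact h.symm
    exact (key hu h1).trans (le_max_left _ _)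
  · have hu : w A.2 = p ^ d := by rw [← hA]; exact h.symm
    exact (key hu h2).trans (le_max_right _ _)

/-- congruent vectors are both generic -/
lemma cong (hd : 1 ≤ d) (hα : w α ≤ 1) (hβ : w β ≤ 1) (hγ : w γ ≤ 1) (hδ : w δ ≤ 1)
    {P Q : K × K} (hP : nn w P ≠ 0) (hQ : nn w Q ≠ 0) (hPQ : w (wd P Q) < nn w P * nn w Q)
    (h : nn w (FM d α β γ δ P) = (nn w P) ^ d) :
    nn w (FM d α β γ δ Q) = (nn w Q) ^ d := by
  have hPp : 0 < nn w P := zero_lt_iff.2 hP
  have hQp : 0 < nn w Q := zero_lt_iff.2 hQ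
  have hE : w ((P.1 * Q.2) ^ d - (Q.1 * P.2) ^ d) < (nn w P * nn w Q) ^ d := by
    refine (pow_sub_le (M := nn w P * nn w Q) hd ?_ ?_).trans_lt ?_
    · rw [map_mul]
      exact mul_le_mul' (le_max_left _ _) (le_max_right _ _)
    · rw [map_mul, mul_comm]
      exact mul_le_mul' (le_max_right _ _) (le_max_left _ _)
    · have h3 : (nn w P * nn w Q) ^ d = (nn w P * nn w Q) * (nn w P * nn w Q) ^ (d - 1) := by
        rw [← pow_succ', Nat.sub_add_cancel hd]
      rw [h3]
      have h4 : 0 < (nn w P * nn w Q) ^ (d - 1) := pow_pos (mul_pos hPp hQp) _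
      have h5 : w (P.1 * Q.2 - Q.1 * P.2) < nn w P * nn w Q := hPQ
      gcongr
  have hsm : ∀ {a : K}, w a ≤ 1 → ∀ {b : K}, w b < (nn w P * nn w Q) ^ d →
      w (a * b) < (nn w P * nn w Q) ^ d := by
    intro a ha b hb
    rw [map_mul]
    calc w a * w b ≤ 1 * w b := mul_le_mul' ha le_rfl
      _ = w b := one_mul _
      _ < _ := hb
  have hB := nn_FM_le (d := d) hα hβ hγ hδ Q
  rcases le_total (w P.2) (w P.1) with hc | hc
  · have hp : w P.1 = nn w P := (max_eq_left hc).symm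
    have hq : w Q.1 = nn w Q := by
      by_contra hcon
      have hlt : w Q.1 < nn w Q := lt_of_le_of_ne (le_max_left _ _) hcon
      have hq2 : w Q.2 = nn w Q := by
        rcases max_choice (w Q.1) (w Q.2) with h1 | h1
        · exact absurd h1.symm hcon
        · exact h1.symm
      have e1 : w (P.1 * Q.2) = nn w P * nn w Q := by rw [map_mul, hp, hq2]
      have e2 : w (Q.1 * P.2) < w (P.1 * Q.2) := by
        rw [e1, map_mul, mul_comm]
        calc w P.2 * w Q.1 ≤ nn w P * w Q.1 := mul_le_mul' (le_max_right _ _) le_rfl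
          _ < nn w P * nn w Q := by gcongr
      have e3 : w (wd P Q) = nn w P * nn w Q := by
        unfold wd
        rw [w.map_sub_eq_of_lt_left e2, e1]
      rw [e3] at hPQ
      exact absurd hPQ (lt_irrefl _)
    refine fin_aux hP hp hq h ?_ ?_ hB
    · have e : P.1 ^ d * (FM d α β γ δ Q).1 - Q.1 ^ d * (FM d α β γ δ P).1 =
          β * ((P.1 * Q.2) ^ d - (Q.1 * P.2) ^ d) := by
        simp only [FM]; ring
      rw [e]
      exact hsm hβ hE
    · have e : P.1 ^ d * (FM d α β γ δ Q).2 - Q.1 ^ d * (FM d α β γ δ P).2 =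
          δ * ((P.1 * Q.2) ^ d - (Q.1 * P.2) ^ d) := by
        simp only [FM]; ring
      rw [e]
      exact hsm hδ hE
  · have hp : w P.2 = nn w P := (max_eq_right hc).symm
    have hq : w Q.2 = nn w Q := by
      by_contra hcon
      have hlt : w Q.2 < nn w Q := lt_of_le_of_ne (le_max_right _ _) hcon
      have hq2 : w Q.1 = nn w Q := by
        rcases max_choice (w Q.1) (w Q.2) with h1 | h1
        · exact h1.symm
        · exact absurd h1.symm hcon
      have e1 : w (Q.1 * P.2) = nn w P * nn w Q := by rw [map_mul, hp, hq2, mul_comm]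
      have e2 : w (P.1 * Q.2) < w (Q.1 * P.2) := by
        rw [e1, map_mul]
        calc w P.1 * w Q.2 ≤ nn w P * w Q.2 := mul_le_mul' (le_max_left _ _) le_rfl
          _ < nn w P * nn w Q := by gcongr
      have e3 : w (wd P Q) = nn w P * nn w Q := by
        unfold wd
        rw [w.map_sub_eq_of_lt_right e2, e1]
      rw [e3] at hPQ
      exact absurd hPQ (lt_irrefl _)
    have hE' : w (-((P.1 * Q.2) ^ d - (Q.1 * P.2) ^ d)) < (nn w P * nn w Q) ^ d := by
      rw [Valuation.map_neg]; exact hE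
    refine fin_aux hP hp hq h ?_ ?_ hB
    · have e : P.2 ^ d * (FM d α β γ δ Q).1 - Q.2 ^ d * (FM d α β γ δ P).1 =
          α * -((P.1 * Q.2) ^ d - (Q.1 * P.2) ^ d) := by
        simp only [FM]; ring
      rw [e]
      exact hsm hα hE'
    · have e : P.2 ^ d * (FM d α β γ δ Q).2 - Q.2 ^ d * (FM d α β γ δ P).2 =
          γ * -((P.1 * Q.2) ^ d - (Q.1 * P.2) ^ d) := by
        simp only [FM]; ring
      rw [e]
      exact hsm hγ hE'

end basic

section main

variable {K Γ : Type} [Field K] [LinearOrderedCommGroupWithZero Γ] {w : Valuation K Γ}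
  {d : ℕ} {α β γ δ : K}

/-- generic vectors -/
def Gn (w : Valuation K Γ) (d : ℕ) (α β γ δ : K) (P : K × K) : Prop :=
  nn w (FM d α β γ δ P) = (nn w P) ^ d

lemma Gn_smul {s : K} (hs : s ≠ 0) {P : K × K} :
    Gn w d α β γ δ (s • P) ↔ Gn w d α β γ δ P := by
  unfold Gn
  rw [FM_smul, nn_smul, nn_smul, map_pow, mul_pow]
  have h : w s ^ d ≠ 0 := pow_ne_zero _ ((w.ne_zero_iff).2 hs)
  constructor
  · intro h1
    exact mul_left_cancel₀ h h1
  · intro h1
    rw [h1]

/-- what the condition gives -/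
structure Dt (w : Valuation K Γ) (d : ℕ) (α β γ δ : K) : Prop where
  hd : 2 ≤ d
  hα : w α ≤ 1
  hβ : w β ≤ 1
  hγ : w γ ≤ 1
  hδ : w δ ≤ 1
  hV : nn w (α, γ) = 1
  hU : nn w (β, δ) = 1
  hVg : Gn w d α β γ δ (α, γ)
  hD0 : α * δ - β * γ ≠ 0
  hD : w (α * δ - β * γ) < 1

lemma Dt.of {hd : 2 ≤ d} (h0 : α * δ - β * γ ≠ 0) (h1 : w (α * δ - β * γ) < 1)
    (h : Prim w d α β γ δ) : Dt w d α β γ δ := by
  obtain ⟨⟨hα, hβ, hγ, hδ⟩, h2, h3, h4⟩ := h
  have hV : nn w (α, γ) = 1 := by
    unfold nn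
    refine le_antisymm (max_le hα hγ) ?_
    rcases h2 with h | h
    · exact h ▸ le_max_left _ _
    · exact h ▸ le_max_right _ _
  have hU : nn w (β, δ) = 1 := by
    unfold nn
    refine le_antisymm (max_le hβ hδ) ?_
    rcases h3 with h | h
    · exact h ▸ le_max_left _ _
    · exact h ▸ le_max_right _ _
  refine ⟨hd, hα, hβ, hγ, hδ, hV, hU, ?_, h0, h1⟩
  unfold Gn
  have h5 := nn_FM_le (d := d) hα hβ hγ hδ (α, γ)
  rw [hV, one_pow] at h5
  rw [hV, one_pow]
  refine le_antisymm h5 ?_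
  unfold nn FM
  rcases h4 with h | h
  · have e : α * α ^ d + β * γ ^ d = α ^ (d + 1) + β * γ ^ d := by ring
    refine le_trans ?_ (le_max_left _ _)
    simp only
    rw [e, h]
  · refine le_trans ?_ (le_max_right _ _)
    simp only
    rw [h]

namespace Dt

lemma cg (T : Dt w d α β γ δ) {P Q : K × K} (hP : nn w P ≠ 0) (hQ : nn w Q ≠ 0)
    (hPQ : w (wd P Q) < nn w P * nn w Q) (h : Gn w d α β γ δ P) : Gn w d α β γ δ Q :=
  cong (by have := T.hd; omega) T.hα T.hβ T.hγ T.hδ hP hQ hPQ h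

/-- a generic and a special vector are not congruent -/
lemma sep (T : Dt w d α β γ δ) {P Q : K × K} (hP : nn w P ≠ 0) (hQ : nn w Q ≠ 0)
    (h : Gn w d α β γ δ P) (h' : ¬ Gn w d α β γ δ Q) : w (wd P Q) = nn w P * nn w Q := by
  refine le_antisymm (wd_le P Q) ?_
  by_contra hcon
  rw [not_le] at hcon
  exact h' (T.cg hP hQ hcon h)

lemma FM_wd_V (P : K × K) :
    wd (FM d α β γ δ P) (α, γ) = -(P.2 ^ d * (α * δ - β * γ)) := by
  simp only [FM, wd]
  ring

lemma FM_ne (T : Dt w d α β γ δ) {P : K × K} (hP : nn w P ≠ 0) :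
    nn w (FM d α β γ δ P) ≠ 0 := by
  intro h
  have h0 := nn_eq_zero h
  apply hP
  have e1 : P.2 ^ d * (α * δ - β * γ) = 0 := by
    have := FM_wd_V (d := d) (α := α) (β := β) (γ := γ) (δ := δ) P
    rw [h0] at this
    simp only [wd, Prod.fst_zero, Prod.snd_zero, zero_mul, mul_zero, sub_zero] at this
    linear_combination this
  have e2 : P.1 ^ d * (α * δ - β * γ) = 0 := by
    have : wd (FM d α β γ δ P) (β, δ) = P.1 ^ d * (α * δ - β * γ) := by
      simp only [FM, wd]
      ring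
    rw [h0] at this
    simp only [wd, Prod.fst_zero, Prod.snd_zero, zero_mul, mul_zero, sub_zero] at this
    linear_combination -this
  have hd := T.hd
  have p2 : P.2 = 0 := by
    rcases mul_eq_zero.1 e1 with h | h
    · exact (pow_eq_zero_iff (by omega)).1 h
    · exact absurd h T.hD0
  have p1 : P.1 = 0 := by
    rcases mul_eq_zero.1 e2 with h | h
    · exact (pow_eq_zero_iff (by omega)).1 h
    · exact absurd h T.hD0
  unfold nn
  rw [p1, p2, map_zero, max_self]

lemma it_ne' (T : Dt w d α β γ δ) {P : K × K} (hP : nn w P ≠ 0) (k : ℕ) :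
    nn w ((FM d α β γ δ)^[k] P) ≠ 0 := by
  induction k with
  | zero => exact hP
  | succ k ih =>
    rw [Function.iterate_succ_apply']
    exact T.FM_ne ih

/-- the image of a generic vector is generic -/
lemma gen_succ (T : Dt w d α β γ δ) {P : K × K} (hP : nn w P ≠ 0)
    (h : Gn w d α β γ δ P) : Gn w d α β γ δ (FM d α β γ δ P) := by
  refine T.cg (P := (α, γ)) (by rw [T.hV]; exact one_ne_zero) (T.FM_ne hP) ?_ T.hVg
  rw [wd_swap, Valuation.map_neg, FM_wd_V, Valuation.map_neg, map_mul, map_pow, T.hV, one_mul]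
  have h1 : nn w (FM d α β γ δ P) = (nn w P) ^ d := h
  rw [h1]
  have h2 : 0 < nn w P ^ d := zero_lt_iff.2 (pow_ne_zero _ hP)
  calc w P.2 ^ d * w (α * δ - β * γ) ≤ nn w P ^ d * w (α * δ - β * γ) :=
        mul_le_mul' (pow_le_pow_left₀ zero_le (le_max_right _ _) d) le_rfl
    _ < nn w P ^ d * 1 := by
        have := T.hD
        gcongr
    _ = nn w P ^ d := mul_one _

lemma gen_it (T : Dt w d α β γ δ) {P : K × K} (hP : nn w P ≠ 0)
    (h : Gn w d α β γ δ P) (k : ℕ) : Gn w d α β γ δ ((FM d α β γ δ)^[k] P) := by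
  induction k with
  | zero => exact h
  | succ k ih =>
    rw [Function.iterate_succ_apply']
    exact T.gen_succ (T.it_ne' hP k) ih

/-- if one point of a periodic orbit is generic, all are -/
lemma gen_back (T : Dt w d α β γ δ) {P : K × K} (hP : nn w P ≠ 0) {N : ℕ} (hN : 0 < N)
    {t : K} (ht : t ≠ 0) (hper : (FM d α β γ δ)^[N] P = t • P) {k : ℕ}
    (h : Gn w d α β γ δ ((FM d α β γ δ)^[k] P)) : Gn w d α β γ δ P := by
  obtain ⟨s, hs, e⟩ := FM_it_mul ht hper k
  have hk : k ≤ N * k := Nat.le_mul_of_pos_left k hN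
  obtain ⟨j, hj⟩ := Nat.exists_eq_add_of_le' hk
  have h1 := T.gen_it (T.it_ne' hP k) h j
  rw [← Function.iterate_add_apply, ← hj, e] at h1
  exact (Gn_smul hs).1 h1

/-- a special vector has coordinates of the same value -/
lemma sp_coord (T : Dt w d α β γ δ) {P : K × K} (h : ¬ Gn w d α β γ δ P) :
    w P.1 = w P.2 := by
  have hd := T.hd
  by_contra hne
  rcases lt_or_gt_of_ne hne with hlt | hlt
  · have hP : nn w P = w P.2 := max_eq_right hlt.le
    have hP0 : nn w P ≠ 0 := by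
      rw [hP]
      exact (lt_of_le_of_lt zero_le hlt).ne'
    have h1 : nn w ((0, 1) : K × K) = 1 := by
      unfold nn
      rw [map_zero, map_one]
      exact max_eq_right zero_le
    apply h
    refine T.cg (P := (0, 1)) (by rw [h1]; exact one_ne_zero) hP0 ?_ ?_
    · have e : wd ((0, 1) : K × K) P = -P.1 := by simp only [wd]; ring
      rw [e, Valuation.map_neg, h1, one_mul, hP]
      exact hlt
    · unfold Gn
      have e : FM d α β γ δ (0, 1) = (β, δ) := by
        simp only [FM, one_pow, mul_one]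
        rw [zero_pow (by omega)]
        simp
      rw [e, T.hU, h1, one_pow]
  · have hP : nn w P = w P.1 := max_eq_left hlt.le
    have hP0 : nn w P ≠ 0 := by
      rw [hP]
      exact (lt_of_le_of_lt zero_le hlt).ne'
    have h1 : nn w ((1, 0) : K × K) = 1 := by
      unfold nn
      rw [map_zero, map_one]
      exact max_eq_left zero_le
    apply h
    refine T.cg (P := (1, 0)) (by rw [h1]; exact one_ne_zero) hP0 ?_ ?_
    · have e : wd ((1, 0) : K × K) P = P.2 := by simp only [wd]; ring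
      rw [e, h1, one_mul, hP]
      exact hlt
    · unfold Gn
      have e : FM d α β γ δ (1, 0) = (α, γ) := by
        simp only [FM, one_pow, mul_one]
        rw [zero_pow (by omega)]
        simp
      rw [e, T.hV, h1, one_pow]

/-- contraction: two generic periodic points are equal -/
lemma no_two (T : Dt w d α β γ δ) {P Q : K × K} (hP : nn w P ≠ 0) (hQ : nn w Q ≠ 0)
    {N : ℕ} (hN : 0 < N) {t s : K} (ht : t ≠ 0) (hs : s ≠ 0)
    (hp : (FM d α β γ δ)^[N] P = t • P) (hq : (FM d α β γ δ)^[N] Q = s • Q)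
    (gP : Gn w d α β γ δ P) (gQ : Gn w d α β γ δ Q) : wd P Q = 0 := by
  have hd := T.hd
  by_contra hne
  set F := FM d α β γ δ with hF
  have claim : ∀ k, w (wd (F^[k] P) (F^[k] Q)) * (nn w P * nn w Q) ≤
      w (α * δ - β * γ) ^ k * w (wd P Q) * (nn w (F^[k] P) * nn w (F^[k] Q)) := by
    intro k
    induction k with
    | zero => simp
    | succ k ih =>
      rw [Function.iterate_succ_apply', Function.iterate_succ_apply']
      set P' := F^[k] P with hP'
      set Q' := F^[k] Q with hQ'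
      have g1 : nn w (F P') = (nn w P') ^ d := T.gen_it hP gP k
      have g2 : nn w (F Q') = (nn w Q') ^ d := T.gen_it hQ gQ k
      have e1 : w (wd (F P') (F Q')) ≤ w (α * δ - β * γ) * (w (wd P' Q') *
          (nn w P' * nn w Q') ^ (d - 1)) := by
        rw [hF, FM_wd, map_mul]
        refine mul_le_mul' le_rfl ?_
        refine pow_sub_le (M := nn w P' * nn w Q') (by omega) ?_ ?_
        · rw [map_mul]
          exact mul_le_mul' (le_max_left _ _) (le_max_right _ _)
        · rw [map_mul, mul_comm]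
          exact mul_le_mul' (le_max_right _ _) (le_max_left _ _)
      calc w (wd (F P') (F Q')) * (nn w P * nn w Q)
          ≤ w (α * δ - β * γ) * (w (wd P' Q') * (nn w P' * nn w Q') ^ (d - 1)) *
              (nn w P * nn w Q) := mul_le_mul' e1 le_rfl
        _ = w (α * δ - β * γ) * (nn w P' * nn w Q') ^ (d - 1) *
              (w (wd P' Q') * (nn w P * nn w Q)) := by ac_rfl
        _ ≤ w (α * δ - β * γ) * (nn w P' * nn w Q') ^ (d - 1) *
              (w (α * δ - β * γ) ^ k * w (wd P Q) * (nn w P' * nn w Q')) :=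
            mul_le_mul' le_rfl ih
        _ = w (α * δ - β * γ) ^ (k + 1) * w (wd P Q) *
              ((nn w P' * nn w Q') ^ (d - 1) * (nn w P' * nn w Q')) := by
            rw [pow_succ]; ac_rfl
        _ = w (α * δ - β * γ) ^ (k + 1) * w (wd P Q) * (nn w (F P') * nn w (F Q')) := by
            rw [← pow_succ, Nat.sub_add_cancel (by omega), g1, g2, mul_pow]
  have h1 := claim N
  rw [hp, hq, wd_smul, nn_smul, nn_smul, map_mul, map_mul] at h1
  have hA : w (wd P Q) ≠ 0 := (w.ne_zero_iff).2 hne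
  have ht' : w t ≠ 0 := (w.ne_zero_iff).2 ht
  have hs' : w s ≠ 0 := (w.ne_zero_iff).2 hs
  have hM : w t * w s * w (wd P Q) * (nn w P * nn w Q) ≠ 0 :=
    mul_ne_zero (mul_ne_zero (mul_ne_zero ht' hs') hA) (mul_ne_zero hP hQ)
  have h2 : w (α * δ - β * γ) ^ N < 1 := pow_lt_one₀ zero_le T.hD hN.ne'
  have h3 : w (α * δ - β * γ) ^ N * w (wd P Q) * (w t * nn w P * (w s * nn w Q)) =
      w (α * δ - β * γ) ^ N * (w t * w s * w (wd P Q) * (nn w P * nn w Q)) := by ac_rfl
  rw [h3] at h1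
  have h4 : w (α * δ - β * γ) ^ N * (w t * w s * w (wd P Q) * (nn w P * nn w Q)) <
      1 * (w t * w s * w (wd P Q) * (nn w P * nn w Q)) := by
    have : 0 < w t * w s * w (wd P Q) * (nn w P * nn w Q) := zero_lt_iff.2 hM
    gcongr
  rw [one_mul] at h4
  exact absurd (h1.trans_lt h4) (lt_irrefl _)

/-- the map on the affine line -/
def ff (d : ℕ) (α β γ δ : K) (z : K) : K := (α * z ^ d + β) / (γ * z ^ d + δ)

/-- the orbit of a special periodic point -/
lemma sp_orbit (T : Dt w d α β γ δ) {x : K} {N : ℕ} (hN : 0 < N) {t : K} (ht : t ≠ 0)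
    (hper : (FM d α β γ δ)^[N] (x, 1) = t • ((x, 1) : K × K))
    (hx : ¬ Gn w d α β γ δ (x, 1)) :
    (ff d α β γ δ)^[N] x = x ∧ ∀ k, w ((ff d α β γ δ)^[k] x) = 1 ∧
      (γ * ((ff d α β γ δ)^[k] x) ^ d + δ ≠ 0) ∧
      ¬ Gn w d α β γ δ ((ff d α β γ δ)^[k] x, 1) ∧
      w (γ * ((ff d α β γ δ)^[k] x) ^ d + δ) = w (α * δ - β * γ) := by
  have hd := T.hd
  have hn1 : ∀ z : K, nn w ((z, 1) : K × K) ≠ 0 := by
    intro z h
    have := nn_eq_zero h
    have h2 : (1 : K) = 0 := congrArg Prod.snd this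
    exact one_ne_zero h2
  have hsp : ∀ k, ¬ Gn w d α β γ δ ((FM d α β γ δ)^[k] (x, 1)) := fun k h =>
    hx (T.gen_back (hn1 x) hN ht hper h)
  -- one step
  have hst : ∀ z : K, ¬ Gn w d α β γ δ (FM d α β γ δ (z, 1)) →
      γ * z ^ d + δ ≠ 0 ∧
        FM d α β γ δ (z, 1) = (γ * z ^ d + δ) • ((ff d α β γ δ z, 1) : K × K) := by
    intro z hz
    have h1 := T.sp_coord hz
    have h0 : γ * z ^ d + δ ≠ 0 := by
      intro h
      have e2 : (FM d α β γ δ (z, 1)).2 = 0 := by
        simp only [FM, one_pow, mul_one]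
        exact h
      have e1 : (FM d α β γ δ (z, 1)).1 = 0 := by
        rw [e2, map_zero] at h1
        exact w.zero_iff.1 h1
      apply T.FM_ne (hn1 z)
      unfold nn
      rw [e1, e2, map_zero, max_self]
    refine ⟨h0, ?_⟩
    unfold ff
    simp only [FM, one_pow, mul_one, Prod.smul_mk, smul_eq_mul]
    ext
    · simp only
      rw [mul_comm (γ * z ^ d + δ), div_mul_cancel₀ _ h0]
    · rfl
  have horb : ∀ k, ∃ c : K, c ≠ 0 ∧
      (FM d α β γ δ)^[k] (x, 1) = c • (((ff d α β γ δ)^[k] x, 1) : K × K) := by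
    intro k
    induction k with
    | zero => exact ⟨1, one_ne_zero, by simp⟩
    | succ k ih =>
      obtain ⟨c, hc, e⟩ := ih
      have h1 := hsp (k + 1)
      rw [Function.iterate_succ_apply', e, FM_smul, Gn_smul (pow_ne_zero _ hc)] at h1
      obtain ⟨h2, h3⟩ := hst _ h1
      refine ⟨c ^ d * (γ * ((ff d α β γ δ)^[k] x) ^ d + δ), mul_ne_zero (pow_ne_zero _ hc) h2, ?_⟩
      rw [Function.iterate_succ_apply', e, FM_smul, h3, smul_smul, Function.iterate_succ_apply']
  have hsp' : ∀ k, ¬ Gn w d α β γ δ (((ff d α β γ δ)^[k] x, 1) : K × K) := by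
    intro k h
    obtain ⟨c, hc, e⟩ := horb k
    apply hsp k
    rw [e, Gn_smul hc]
    exact h
  have hFsp : ∀ k, ¬ Gn w d α β γ δ (FM d α β γ δ (((ff d α β γ δ)^[k] x, 1) : K × K)) := by
    intro k h
    obtain ⟨c, hc, e⟩ := horb k
    apply hsp (k + 1)
    rw [Function.iterate_succ_apply', e, FM_smul, Gn_smul (pow_ne_zero _ hc)]
    exact h
  have hval : ∀ k, w ((ff d α β γ δ)^[k] x) = 1 := by
    intro k
    have := T.sp_coord (hsp' k)
    simpa using this
  refine ⟨?_, fun k => ⟨hval k, (hst _ (hFsp k)).1, hsp' k, ?_⟩⟩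
  · obtain ⟨c, hc, e⟩ := horb N
    rw [hper] at e
    have e2 : t = c := by
      have := congrArg Prod.snd e
      simpa using this
    have e1 : t * x = c * (ff d α β γ δ)^[N] x := by
      have := congrArg Prod.fst e
      simpa using this
    rw [← e2] at e1
    exact (mul_left_cancel₀ ht e1).symm
  · set z := (ff d α β γ δ)^[k] x with hz
    obtain ⟨h0, h1⟩ := hst z (hFsp k)
    have hz1 : ¬ Gn w d α β γ δ ((ff d α β γ δ z, 1) : K × K) := by
      have := hsp' (k + 1)
      rw [Function.iterate_succ_apply'] at this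
      exact this
    have hz1v : w (ff d α β γ δ z) = 1 := by
      have := hval (k + 1)
      rw [Function.iterate_succ_apply'] at this
      exact this
    have h2 : nn w ((ff d α β γ δ z, 1) : K × K) = 1 := by
      unfold nn
      rw [map_one, hz1v, max_self]
    have h3 := T.sep (P := (α, γ)) (by rw [T.hV]; exact one_ne_zero)
      (by rw [h2]; exact one_ne_zero) T.hVg hz1
    rw [T.hV, h2, one_mul, wd_swap, Valuation.map_neg] at h3
    have h4 := FM_wd_V (d := d) (α := α) (β := β) (γ := γ) (δ := δ) ((z, 1) : K × K)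
    rw [h1] at h4
    have h5 : wd ((γ * z ^ d + δ) • ((ff d α β γ δ z, 1) : K × K)) (α, γ) =
        (γ * z ^ d + δ) * wd ((ff d α β γ δ z, 1) : K × K) (α, γ) := by
      have := wd_smul (γ * z ^ d + δ) 1 ((ff d α β γ δ z, 1) : K × K) (α, γ)
      rw [one_smul, mul_one] at this
      exact this
    rw [h5] at h4
    have h6 := congrArg w h4
    rw [map_mul, h3, mul_one, Valuation.map_neg, one_pow, one_mul] at h6
    exact h6

end Dt

end main

theorem locmb : LOCMB := by
  intro K Γ _ _ w d α β γ δ x y ζ₁ ζ₂ hd hwd hz hD0 hD hPr hx hy hxy hx0 hy0 h1 h1' h2 h2' n1 n2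
  obtain ⟨z, hz⟩ := hz
  have T : Dt w d α β γ δ := Dt.of (hd := hd) hD0 hD hPr
  obtain ⟨m1, hm1, t1, ht1, e1⟩ := hx
  obtain ⟨m2, hm2, t2, ht2, e2⟩ := hy
  obtain ⟨s1, hs1, e1'⟩ := FM_it_mul ht1 e1 m2
  obtain ⟨s2, hs2, e2'⟩ := FM_it_mul ht2 e2 m1
  rw [Nat.mul_comm m2 m1] at e2'
  have hN : 0 < m1 * m2 := Nat.mul_pos hm1 hm2
  have hn1 : ∀ z : K, nn w ((z, 1) : K × K) ≠ 0 := by
    intro z h
    have := nn_eq_zero h
    have h2 : (1 : K) = 0 := congrArg Prod.snd this
    exact one_ne_zero h2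
  have hrot : ∀ ζ : K, ζ ^ d = 1 → nn w ((ζ * y, 1) : K × K) = nn w ((y, 1) : K × K) ∧
      (Gn w d α β γ δ (ζ * y, 1) ↔ Gn w d α β γ δ (y, 1)) := by
    intro ζ hζ
    have hv : w ζ = 1 := val_root w (by omega) hζ
    have hnn : nn w ((ζ * y, 1) : K × K) = nn w ((y, 1) : K × K) := by
      unfold nn
      simp only
      rw [map_mul, hv, one_mul]
    refine ⟨hnn, ?_⟩
    unfold Gn
    have e : FM d α β γ δ (ζ * y, 1) = FM d α β γ δ (y, 1) := by
      simp only [FM, mul_pow, hζ, one_mul]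
    rw [e, hnn]
  have hwde : ∀ ζ : K, wd ((x, 1) : K × K) (ζ * y, 1) = x - ζ * y := by
    intro ζ
    simp only [wd]
    ring
  have hquot : ∀ M : Γ, M ≠ 0 → (∀ ζ : K, ζ ^ d = 1 → w (x - ζ * y) = M) →
      ∃ k : ℤ, w ((x - ζ₁ * y) / (x - ζ₂ * y)) = w (α * δ - β * γ) ^ k := by
    intro M hM h
    refine ⟨0, ?_⟩
    rw [zpow_zero, map_div₀, h ζ₁ h1, h ζ₂ h2, div_self hM]
  by_cases gx : Gn w d α β γ δ (x, 1)
  · by_cases gy : Gn w d α β γ δ (y, 1)
    · exfalso
      have := T.no_two (hn1 x) (hn1 y) hN hs1 hs2 e1' e2' gx gy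
      apply hxy
      simp only [wd] at this
      linear_combination this
    · refine hquot (nn w ((x, 1) : K × K) * nn w ((y, 1) : K × K))
        (mul_ne_zero (hn1 x) (hn1 y)) fun ζ hζ => ?_
      have := T.sep (hn1 x) (hn1 (ζ * y)) gx (fun h => gy ((hrot ζ hζ).2.1 h))
      rw [hwde, (hrot ζ hζ).1] at this
      exact this
  · by_cases gy : Gn w d α β γ δ (y, 1)
    · refine hquot (nn w ((y, 1) : K × K) * nn w ((x, 1) : K × K))
        (mul_ne_zero (hn1 y) (hn1 x)) fun ζ hζ => ?_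
      have := T.sep (hn1 (ζ * y)) (hn1 x) ((hrot ζ hζ).2.2 gy) gx
      rw [wd_swap, Valuation.map_neg, hwde, (hrot ζ hζ).1] at this
      exact this
    · obtain ⟨px, qx⟩ := T.sp_orbit hN hs1 e1' gx
      obtain ⟨py, qy⟩ := T.sp_orbit hN hs2 e2' gy
      have key := core_pow hd hwd hz hN px py hxy (W := (1 : Γ)) one_ne_zero
        (fun k => (qx k).1) (fun k => (qy k).1) (g₀ := α * δ - β * γ) hD0 hD (m := 1)
        one_ne_zero ?_ h1 h1' h2 h2'
      · obtain ⟨k, hk⟩ := key
        exact ⟨k, by rw [hk, pow_one]⟩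
      · intro k
        obtain ⟨_, a0, _, a2⟩ := qx k
        obtain ⟨_, b0, _, b2⟩ := qy k
        rw [Function.iterate_succ_apply', Function.iterate_succ_apply']
        set u := (Dt.ff d α β γ δ)^[k] x with hu
        set v := (Dt.ff d α β γ δ)^[k] y with hv
        have e : (γ * u ^ d + δ) * (γ * v ^ d + δ) * (Dt.ff d α β γ δ u - Dt.ff d α β γ δ v) =
            (α * δ - β * γ) * (u ^ d - v ^ d) := by
          unfold Dt.ff
          field_simp
          ring
        have e' := congrArg w e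
        rw [map_mul, map_mul, map_mul, a2, b2, mul_assoc] at e'
        have hw0 : w (α * δ - β * γ) ≠ 0 := (w.ne_zero_iff).2 hD0
        have e3 := mul_left_cancel₀ hw0 e'
        rw [← e3, one_pow, mul_one, pow_one, mul_comm]

end Pool.Agent.W2helper63.BT6
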